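import Pool.Agent.helper83.LS.Spec3

set_option autoImplicit false

/-! # Project ls, LK: a labelling gives `K` of the shape -/

namespace LSH

theorem LK_root_mem {V : Type} (t : LT V) : t.root ∈ t.verts := by
  cases t <;> simp [LT.root, LT.verts]

theorem LK_edg_mem {V : Type} (t : LT V) : ∀ u v, (u, v) ∈ t.edg → u ∈ t.verts := by
  induction t with
  | leaf w => intro u v h; simp [LT.edg] at h
  | un w t ih =>
    intro u v h
    simp only [LT.edg, List.mem_cons, Prod.mk.injEq] at h
    simp only [LT.verts, List.mem_cons]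
    rcases h with ⟨h, _⟩ | h
    · exact Or.inl h
    · exact Or.inr (ih u v h)
  | br w a b iha ihb =>
    intro u v h
    simp only [LT.edg, List.mem_append, List.mem_cons, Prod.mk.injEq] at h
    simp only [LT.verts, List.mem_cons, List.mem_append]
    rcases h with (⟨h, _⟩ | h) | (⟨h, _⟩ | h)
    · exact Or.inl h
    · exact Or.inr (Or.inl (iha u v h))
    · exact Or.inl h
    · exact Or.inr (Or.inr (ihb u v h))

theorem LK_mono {i j : ℕ} {t : BT} (h : K i t) (hij : i ≤ j) (hj : j ≤ 2) : K j t := by
  cases h with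
  | leaf => exact K.leaf j
  | un0 _ t h => exact K.un0 j t h
  | un2 t h =>
    have : j = 2 := by omega
    subst this
    exact K.un2 t h
  | un3 _ t h1 h => exact K.un3 j t (h1.trans hij) h
  | br1 _ s t h1 h h' => exact K.br1 j s t (h1.trans hij) h h'
  | br1' _ s t h1 h h' => exact K.br1' j s t (h1.trans hij) h h'
  | br2 s t h h' =>
    have : j = 2 := by omega
    subst this
    exact K.br2 s t h h'
  | br2' s t h h' =>
    have : j = 2 := by omega
    subst this
    exact K.br2' s t h h'

/-- the property of a subtree -/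
def LK_sub {n : ℕ} (T : SimpleGraph (Fin n)) (r : Fin n) (s : LT (Fin n)) : Prop :=
  s.verts.Nodup ∧ ∀ u ∈ s.verts, ∀ v, (u, v) ∈ s.edg ↔ v ∈ kids T r u

variable {n : ℕ} {T : SimpleGraph (Fin n)} {r : Fin n}

theorem LK_leaf {v : Fin n} (h : LK_sub T r (.leaf v)) : kids T r v = ∅ := by
  ext w
  rw [← h.2 v (by simp [LT.verts]) w]
  simp [LT.edg]

theorem LK_un {v : Fin n} {s : LT (Fin n)} (h : LK_sub T r (.un v s)) :
    LK_sub T r s ∧ kids T r v = {s.root} := by
  obtain ⟨h1, h2⟩ := h
  simp only [LT.verts, List.nodup_cons] at h1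
  refine ⟨⟨h1.2, fun u hu w => ?_⟩, ?_⟩
  · rw [← h2 u (by simp only [LT.verts, List.mem_cons]; exact Or.inr hu) w]
    simp only [LT.edg, List.mem_cons, Prod.mk.injEq]
    constructor
    · exact fun h => Or.inr h
    · rintro (⟨h, _⟩ | h)
      · exact absurd (h ▸ hu) h1.1
      · exact h
  · ext w
    rw [← h2 v (by simp [LT.verts]) w, Set.mem_singleton_iff]
    simp only [LT.edg, List.mem_cons, Prod.mk.injEq, true_and]
    constructor
    · rintro (h | h)
      · exact h
      · exact absurd (LK_edg_mem s v w h) h1.1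
    · exact fun h => Or.inl h

theorem LK_br {v : Fin n} {a b : LT (Fin n)} (h : LK_sub T r (.br v a b)) :
    LK_sub T r a ∧ LK_sub T r b ∧ kids T r v = {a.root, b.root} ∧ a.root ≠ b.root := by
  obtain ⟨h1, h2⟩ := h
  simp only [LT.verts, List.nodup_cons, List.nodup_append, List.mem_append, not_or] at h1
  obtain ⟨⟨hva, hvb⟩, hna, hnb, hdis⟩ := h1
  refine ⟨⟨hna, fun u hu w => ?_⟩, ⟨hnb, fun u hu w => ?_⟩, ?_,
    hdis _ (LK_root_mem a) _ (LK_root_mem b)⟩
  · rw [← h2 u (by simp only [LT.verts, List.mem_cons, List.mem_append]; exact Or.inr (Or.inl hu)) w]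
    simp only [LT.edg, List.mem_append, List.mem_cons, Prod.mk.injEq]
    constructor
    · exact fun h => Or.inl (Or.inr h)
    · rintro ((⟨h, _⟩ | h) | (⟨h, _⟩ | h))
      · exact absurd (h ▸ hu) hva
      · exact h
      · exact absurd (h ▸ hu) hva
      · exact absurd rfl (hdis u hu u (LK_edg_mem b u w h))
  · rw [← h2 u (by simp only [LT.verts, List.mem_cons, List.mem_append]; exact Or.inr (Or.inr hu)) w]
    simp only [LT.edg, List.mem_append, List.mem_cons, Prod.mk.injEq]
    constructor
    · exact fun h => Or.inr (Or.inr h)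
    · rintro ((⟨h, _⟩ | h) | (⟨h, _⟩ | h))
      · exact absurd (h ▸ hu) hvb
      · exact absurd rfl (hdis u (LK_edg_mem a u w h) u hu)
      · exact absurd (h ▸ hu) hvb
      · exact h
  · ext w
    rw [← h2 v (by simp [LT.verts]) w, Set.mem_insert_iff, Set.mem_singleton_iff]
    simp only [LT.edg, List.mem_append, List.mem_cons, Prod.mk.injEq, true_and]
    constructor
    · rintro ((h | h) | (h | h))
      · exact Or.inl h
      · exact absurd (LK_edg_mem a v w h) hva
      · exact Or.inr h
      · exact absurd (LK_edg_mem b v w h) hvb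
    · rintro (h | h)
      · exact Or.inl (Or.inl h)
      · exact Or.inr (Or.inl h)

theorem LK_pair_ne {a b w : Fin n} (hab : a ≠ b) : ({a, b} : Set (Fin n)) ≠ {w} := by
  intro h
  have h1 : a ∈ ({w} : Set (Fin n)) := h ▸ Set.mem_insert a _
  have h2 : b ∈ ({w} : Set (Fin n)) := h ▸ Set.mem_insert_of_mem a rfl
  exact hab (h1.trans h2.symm)

/-- a subtree whose root has exactly one child -/
theorem LK_one {s : LT (Fin n)} {w : Fin n} (h : LK_sub T r s) (hw : kids T r s.root = {w}) :
    ∃ s', s = .un s.root s' ∧ LK_sub T r s' ∧ s'.root = w := by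
  cases s with
  | leaf v =>
    have h1 := LK_leaf h
    simp only [LT.root] at hw
    rw [h1] at hw
    exact absurd hw.symm (Set.singleton_nonempty w).ne_empty
  | un v s' =>
    obtain ⟨h1, h2⟩ := LK_un h
    simp only [LT.root] at hw
    rw [h2] at hw
    exact ⟨s', rfl, h1, Set.singleton_injective hw⟩
  | br v a b =>
    obtain ⟨-, -, h1, h2⟩ := LK_br h
    simp only [LT.root] at hw
    rw [h1] at hw
    exact absurd hw (LK_pair_ne h2)

theorem LK_main (ρ : Fin n → ℕ) (hL : Lab T r ρ) : ∀ (N : ℕ) (s : LT (Fin n)), s.verts.length ≤ N →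
    LK_sub T r s → K (ρ s.root) s.shape := by
  intro N
  induction N with
  | zero =>
    intro s hs
    cases s <;> simp [LT.verts] at hs
  | succ N ih =>
    intro s hs h
    cases s with
    | leaf v => exact K.leaf _
    | un v s =>
      obtain ⟨h1, h2⟩ := LK_un h
      have hlen : s.verts.length ≤ N := by
        simp only [LT.verts, List.length_cons] at hs
        omega
      have hK := ih s hlen h1
      show K (ρ v) (.un s.shape)
      obtain ⟨hv2, h3⟩ := hL v
      rcases h3 with h3 | ⟨w, h3, h4⟩ | ⟨w, w', hne, h3, -⟩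
      · rw [h2] at h3
        exact absurd h3 (Set.singleton_nonempty _).ne_empty
      · rw [h2] at h3
        have hw : s.root = w := Set.singleton_injective h3
        rw [← hw] at h4
        rcases h4 with h4 | h4 | ⟨h4, w₂, w₃, h5, h6⟩
        · exact K.un0 _ _ (LK_mono hK h4 (by omega))
        · rw [h4]
          exact K.un2 _ (LK_mono hK (hL _).1 le_rfl)
        · obtain ⟨s₂, e2, hs2, hr2⟩ := LK_one h1 h5
          rw [← hr2] at h6
          obtain ⟨s₃, e3, hs3, hr3⟩ := LK_one hs2 h6
          have hlen3 : s₃.verts.length ≤ N := by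
            rw [e2, e3] at hlen
            simp only [LT.verts, List.length_cons] at hlen
            omega
          have hK3 := ih s₃ hlen3 hs3
          rw [e2, e3]
          exact K.un3 _ _ h4 (LK_mono hK3 (hL _).1 le_rfl)
      · rw [h2] at h3
        exact absurd h3.symm (LK_pair_ne hne)
    | br v a b =>
      obtain ⟨ha, hb, hk, hab⟩ := LK_br h
      have hlen : a.verts.length ≤ N ∧ b.verts.length ≤ N := by
        simp only [LT.verts, List.length_cons, List.length_append] at hs
        omega
      have hKa := ih a hlen.1 ha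
      have hKb := ih b hlen.2 hb
      show K (ρ v) (.br a.shape b.shape)
      obtain ⟨hv2, h3⟩ := hL v
      rcases h3 with h3 | ⟨w, h3, -⟩ | ⟨w, w', hne, h3, h4⟩
      · rw [hk] at h3
        exact absurd h3 (Set.insert_nonempty _ _).ne_empty
      · rw [hk] at h3
        exact absurd h3 (LK_pair_ne hab)
      · rw [hk] at h3
        have hcase : (w = a.root ∧ w' = b.root) ∨ (w = b.root ∧ w' = a.root) := by
          have e1 : w ∈ ({a.root, b.root} : Set (Fin n)) := h3 ▸ Set.mem_insert w _
          have e2 : w' ∈ ({a.root, b.root} : Set (Fin n)) := h3 ▸ Set.mem_insert_of_mem w rfl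
          rcases e1 with e1 | e1
          · rcases e2 with e2 | e2
            · exact absurd (e1.trans e2.symm) hne
            · exact Or.inl ⟨e1, e2⟩
          · rcases e2 with e2 | e2
            · exact Or.inr ⟨e1, e2⟩
            · exact absurd (e1.trans e2.symm) hne
        rcases hcase with ⟨e1, e2⟩ | ⟨e1, e2⟩
        · rw [e1, e2] at h4
          rcases h4 with ⟨h5, h6, h7⟩ | ⟨h5, h6⟩
          · exact K.br1 _ _ _ h5 (by rw [h6] at hKa; exact hKa) (LK_mono hKb h7 (by omega))
          · rw [h5]
            exact K.br2' _ _ (LK_mono hKa h6 (by omega)) (LK_mono hKb (hL _).1 le_rfl)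
        · rw [e1, e2] at h4
          rcases h4 with ⟨h5, h6, h7⟩ | ⟨h5, h6⟩
          · exact K.br1' _ _ _ h5 (LK_mono hKa h7 (by omega)) (by rw [h6] at hKb; exact hKb)
          · rw [h5]
            exact K.br2 _ _ (LK_mono hKa (hL _).1 le_rfl) (LK_mono hKb h6 (by omega))

theorem LK : LK_stmt := by
  intro n T r ρ hL t ht hn he
  have h : LK_sub T r t := ⟨hn, fun u _ v => he u v⟩
  have := LK_main ρ hL _ t le_rfl h
  rwa [ht] at this

end LSH
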