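import Pool.Agent.helper83.LS.Spec2

set_option autoImplicit false

/-! ls:RL3a -/

namespace LSH

theorem RL3a_box (h1 : OB_stmt) (h2 : EE_stmt) (d : PT) (S : Finset Pt) (hd : d.pts = S.val) (e : Edge)
    (he : e ∈ d.edges) (z : Pt) (hz : e.on z) :
    (∃ y ∈ S, y.1 ≤ z.1) ∧ (∃ y ∈ S, y.2 ≤ z.2) ∧ (∃ y ∈ S, z.1 ≤ y.1) ∧ (∃ y ∈ S, z.2 ≤ y.2) := by
  obtain ⟨ha, hb⟩ := h2.1 d e he
  rw [hd] at ha hb
  obtain ⟨hx, hy⟩ := h1.1 e z hz
  rw [Set.mem_uIcc] at hx hy
  refine ⟨?_, ?_, ?_, ?_⟩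
  · rcases hx with hx | hx
    · exact ⟨e.a, ha, hx.1⟩
    · exact ⟨e.b, hb, hx.1⟩
  · rcases hy with hx | hx
    · exact ⟨e.a, ha, hx.1⟩
    · exact ⟨e.b, hb, hx.1⟩
  · rcases hx with hx | hx
    · exact ⟨e.b, hb, hx.2⟩
    · exact ⟨e.a, ha, hx.2⟩
  · rcases hy with hx | hx
    · exact ⟨e.b, hb, hx.2⟩
    · exact ⟨e.a, ha, hx.2⟩

theorem RL3a_A (h1 : OB_stmt) (h2 : EE_stmt) (w : Pt) (Y X : Finset Pt) (ds dt : PT) (s t : BT) (k : Bool)
    (hs : Att w false s Y ds) (ht : Att w k t X dt) (hwY : ∀ y ∈ Y, w.1 < y.1 ∧ w.2 < y.2)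
    (hwX : ∀ x ∈ X, w.1 < x.1) (hYX : ∀ y ∈ Y, ∀ x ∈ X, x.2 < y.2)
    (hk : k = true ∨ dt.root.2 < w.2) : ∀ f ∈ att w false ds, ∀ g ∈ att w k dt, NC f g := by
  have hrs : ds.root ∈ Y := by
    have := h2.2.1 ds
    rw [hs.2.1] at this
    exact this
  have hrt : dt.root ∈ X := by
    have := h2.2.1 dt
    rw [ht.2.1] at this
    exact this
  have g2 : ∀ g ∈ att w k dt, ∀ z, g.on z → z.2 ≤ w.2 ∨ ∃ x ∈ X, z.2 ≤ x.2 := by
    intro g hg z hz
    rcases List.mem_cons.1 hg with rfl | hg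
    · have hb := (h1.1 _ z hz).2
      rw [Set.mem_uIcc] at hb
      rcases hb with hb | hb
      · exact Or.inr ⟨_, hrt, hb.2⟩
      · exact Or.inl hb.2
    · exact Or.inr (RL3a_box h1 h2 dt X ht.2.1 g hg z hz).2.2.2
  intro f hf g hg z hfz hgz
  rcases List.mem_cons.1 hf with rfl | hf
  · have hup : z.2 ≠ ds.root.2 := by
      intro he
      rcases g2 g hg z hgz with h | ⟨x, hx, h⟩
      · have := (hwY _ hrs).2
        linarith
      · have := hYX _ hrs x hx
        linarith
    have hfz' : z.1 = w.1 ∧ z.2 ∈ Set.uIcc w.2 ds.root.2 := by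
      rcases hfz with ⟨h, _⟩ | ⟨_, h | h⟩
      · exact absurd h (by simp)
      · exact h
      · exact absurd h.1 hup
    have hz2 : w.2 ≤ z.2 := by
      have h3 := hfz'.2
      rw [Set.mem_uIcc] at h3
      have := (hwY _ hrs).2
      rcases h3 with h3 | h3
      · exact h3.1
      · linarith [h3.1, h3.2]
    rcases List.mem_cons.1 hg with rfl | hg
    · have hzw : z = w := by
        have hx := hwX _ hrt
        refine Prod.ext hfz'.1 ?_
        rcases hgz with ⟨_, h | h⟩ | ⟨hk', h | h⟩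
        · exact h.1
        · exact absurd (h.1.symm.trans hfz'.1) (ne_of_gt hx)
        · rcases hk with hk | hk
          · exact absurd (hk.symm.trans hk') (by simp)
          · have h3 := h.2
            rw [Set.mem_uIcc] at h3
            simp only at h3 hk
            rcases h3 with h3 | h3
            · linarith [h3.1, h3.2]
            · linarith [h3.1, h3.2]
        · rcases hk with hk | hk
          · exact absurd (hk.symm.trans hk') (by simp)
          · have h3 := h.1
            simp only at h3 hk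
            linarith
      exact ⟨Or.inl hzw, Or.inl hzw⟩
    · obtain ⟨y, hy, hy'⟩ := (RL3a_box h1 h2 dt X ht.2.1 g hg z hgz).1
      have := hwX y hy
      exact absurd hfz'.1 (by linarith [hfz'.1])
  · obtain ⟨y, hy, hy'⟩ := (RL3a_box h1 h2 ds Y hs.2.1 f hf z hfz).2.1
    rcases g2 g hg z hgz with h | ⟨x, hx, h⟩
    · have := (hwY _ hy).2
      linarith
    · have := hYX _ hy x hx
      linarith

theorem RL3a_B (h1 : OB_stmt) (h2 : EE_stmt) (w : Pt) (Y X : Finset Pt) (ds dt : PT) (s t : BT) (k : Bool)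
    (hs : Att w k s Y ds) (ht : Att w false t X dt) (hwX : ∀ y ∈ X, w.1 < y.1 ∧ y.2 < w.2)
    (hwY : ∀ x ∈ Y, w.1 < x.1) (hYX : ∀ y ∈ Y, ∀ x ∈ X, x.2 < y.2)
    (hk : k = true ∨ w.2 < ds.root.2) : ∀ f ∈ att w k ds, ∀ g ∈ att w false dt, NC f g := by
  have hrs : ds.root ∈ Y := by
    have := h2.2.1 ds
    rw [hs.2.1] at this
    exact this
  have hrt : dt.root ∈ X := by
    have := h2.2.1 dt
    rw [ht.2.1] at this
    exact this
  have g2 : ∀ g ∈ att w k ds, ∀ z, g.on z → w.2 ≤ z.2 ∨ ∃ x ∈ Y, x.2 ≤ z.2 := by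
    intro g hg z hz
    rcases List.mem_cons.1 hg with rfl | hg
    · have hb := (h1.1 _ z hz).2
      rw [Set.mem_uIcc] at hb
      rcases hb with hb | hb
      · exact Or.inl hb.1
      · exact Or.inr ⟨_, hrs, hb.1⟩
    · exact Or.inr (RL3a_box h1 h2 ds Y hs.2.1 g hg z hz).2.1
  intro f hf g hg z hfz hgz
  rcases List.mem_cons.1 hg with rfl | hg
  · have hup : z.2 ≠ dt.root.2 := by
      intro he
      rcases g2 f hf z hfz with h | ⟨x, hx, h⟩
      · have := (hwX _ hrt).2
        linarith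
      · have := hYX _ hx _ hrt
        linarith
    have hgz' : z.1 = w.1 ∧ z.2 ∈ Set.uIcc w.2 dt.root.2 := by
      rcases hgz with ⟨h, _⟩ | ⟨_, h | h⟩
      · exact absurd h (by simp)
      · exact h
      · exact absurd h.1 hup
    have hz2 : z.2 ≤ w.2 := by
      have h3 := hgz'.2
      rw [Set.mem_uIcc] at h3
      have := (hwX _ hrt).2
      rcases h3 with h3 | h3
      · linarith [h3.1, h3.2]
      · exact h3.2
    rcases List.mem_cons.1 hf with rfl | hf
    · have hzw : z = w := by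
        have hx := hwY _ hrs
        refine Prod.ext hgz'.1 ?_
        rcases hfz with ⟨_, h | h⟩ | ⟨hk', h | h⟩
        · exact h.1
        · exact absurd (h.1.symm.trans hgz'.1) (ne_of_gt hx)
        · rcases hk with hk | hk
          · exact absurd (hk.symm.trans hk') (by simp)
          · have h3 := h.2
            rw [Set.mem_uIcc] at h3
            simp only at h3 hk
            rcases h3 with h3 | h3
            · linarith [h3.1, h3.2]
            · linarith [h3.1, h3.2]
        · rcases hk with hk | hk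
          · exact absurd (hk.symm.trans hk') (by simp)
          · have h3 := h.1
            simp only at h3 hk
            linarith
      exact ⟨Or.inl hzw, Or.inl hzw⟩
    · obtain ⟨y, hy, hy'⟩ := (RL3a_box h1 h2 ds Y hs.2.1 f hf z hfz).1
      have := hwY y hy
      exact absurd hgz'.1 (by linarith [hgz'.1])
  · obtain ⟨y, hy, hy'⟩ := (RL3a_box h1 h2 dt X ht.2.1 g hg z hgz).2.2.2
    rcases g2 f hf z hfz with h | ⟨x, hx, h⟩
    · have := (hwX _ hy).2
      linarith
    · have := hYX _ hx _ hy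
      linarith

theorem RL3a (h1 : OB_stmt) (h2 : EE_stmt) (h3 : DW_stmt) (h4 : SY_stmt) (h5 : FA_stmt) :
    RL3a_stmt := by
  intro s t hs ht S w z hcard hgen hw hmin hz hzw hz1 hz2
  set R := S.erase w with hR
  have hRc : R.card = s.size + t.size := by
    rw [hR, Finset.card_erase_of_mem hw, hcard]
    omega
  have hgR : Gen (R : Set Pt) := fun a ha b hb hab =>
    hgen a (Finset.mem_of_mem_erase ha) b (Finset.mem_of_mem_erase hb) hab
  obtain ⟨T, hTR, hTc, hT⟩ := h4 R t.size hgR (by omega)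
  have hwR : ∀ r ∈ R, w.1 < r.1 ∧ w.2 ≠ r.2 := by
    intro r hr
    have hr1 := Finset.mem_of_mem_erase hr
    have hr2 := Finset.ne_of_mem_erase hr
    have := hgen w hw r hr1 hr2.symm
    exact ⟨lt_of_le_of_ne (hmin r hr1) this.1, this.2⟩
  have hQc : (R \ T).card = s.size := by
    rw [Finset.card_sdiff_of_subset hTR, hRc, hTc]
    omega
  have hgT : Gen (insert w (T : Set Pt)) := by
    intro a ha b hb hab
    refine hgen a ?_ b ?_ hab
    · rcases ha with rfl | ha
      · exact hw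
      · exact Finset.mem_of_mem_erase (hTR ha)
    · rcases hb with rfl | hb
      · exact hw
      · exact Finset.mem_of_mem_erase (hTR hb)
  have hgQ : Gen (insert w ((R \ T : Finset Pt) : Set Pt)) := by
    intro a ha b hb hab
    refine hgen a ?_ b ?_ hab
    · rcases ha with rfl | ha
      · exact hw
      · exact Finset.mem_of_mem_erase (Finset.sdiff_subset ha)
    · rcases hb with rfl | hb
      · exact hw
      · exact Finset.mem_of_mem_erase (Finset.sdiff_subset hb)
  have hval : w ::ₘ ((R \ T).val + T.val) = S.val := by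
    have hd : Disjoint T (R \ T) := Finset.disjoint_sdiff
    have h5 : (T.disjUnion (R \ T) hd) = R := by
      rw [Finset.disjUnion_eq_union, Finset.union_sdiff_of_subset hTR]
    have h6 : T.val + (R \ T).val = R.val := by
      rw [← Finset.disjUnion_val T (R \ T) hd, h5]
    rw [add_comm, h6, hR, Finset.erase_val]
    exact Multiset.cons_erase hw
  have hfin : ∀ (ds dt : PT) (h k : Bool), Att w h s (R \ T) ds → Att w k t T dt →
      (∀ f ∈ att w h ds, ∀ g ∈ att w k dt, NC f g) →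
      ∃ d, Draw (.br s t) S d ∧ d.root = w := by
    intro ds dt h k hds hdt hc
    refine ⟨.br w h ds k dt, ⟨?_, ?_, ?_⟩, rfl⟩
    · show BT.br ds.shape dt.shape = _
      rw [hds.1, hdt.1]
    · show w ::ₘ (ds.pts + dt.pts) = _
      rw [hds.2.1, hdt.2.1, hval]
    · show (att w h ds ++ att w k dt).Pairwise NC
      rw [List.pairwise_append]
      exact ⟨hds.2.2, hdt.2.2, hc⟩
  have hwQ : ∀ x ∈ R \ T, w.1 < x.1 := fun x hx => (hwR x (Finset.sdiff_subset hx)).1
  obtain ⟨ds, hds, hroot⟩ := (h5 s hs (R \ T) w hQc hgQ).1 hwQ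
  by_cases hcase : ∀ q ∈ R \ T, q.2 < w.2
  · -- all points of the bottom part are below `w`
    obtain ⟨dt, k, hdt, hk⟩ := (h3 t ht T w hTc hgT).1 fun x hx => (hwR x (hTR hx)).1
    refine hfin ds dt false k hds hdt fun f hf g hg => h1.2.2.2 _ _ ?_
    exact RL3a_B h1 h2 w T (R \ T) dt ds t s k hdt hds (fun y hy => ⟨hwQ y hy, hcase y hy⟩)
      (fun x hx => (hwR x (hTR hx)).1) hT hk g hg f hf
  · push_neg at hcase
    obtain ⟨q, hq, hqw⟩ := hcase
    have hTw : ∀ y ∈ T, w.1 < y.1 ∧ w.2 < y.2 := fun y hy =>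
      ⟨(hwR y (hTR hy)).1, lt_of_le_of_lt hqw (hT y hy q hq)⟩
    obtain ⟨dt, hdt⟩ := (h3 t ht T w hTc hgT).2.1 hTw
    have hzR : z ∈ R := Finset.mem_erase.mpr ⟨hzw, hz⟩
    have hzQ : z ∈ R \ T := by
      refine Finset.mem_sdiff.mpr ⟨hzR, fun hzT => ?_⟩
      have := (hTw z hzT).2
      linarith
    have hrd : ds.root ∈ R \ T := by
      have := h2.2.1 ds
      rw [hds.2.1] at this
      exact this
    have hrz : ds.root = z := by
      by_contra hne
      have e1 := hroot z hzQ
      have hrR := Finset.sdiff_subset hrd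
      have e2 := hz1 ds.root (Finset.mem_of_mem_erase hrR) (Finset.ne_of_mem_erase hrR)
      exact (hgR ds.root hrR z hzR hne).1 (le_antisymm e1 e2)
    refine hfin ds dt false false hds hdt fun f hf g hg => h1.2.2.2 _ _ ?_
    exact RL3a_A h1 h2 w T (R \ T) dt ds t s false hdt hds hTw hwQ hT
      (Or.inr (by rw [hrz]; exact hz2)) g hg f hf

end LSH
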